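import Mathlib

set_option autoImplicit false

open Polynomial Filter

namespace Pool.Agent.Results.MP_66748c_al.ExtensionNotHolonomic

universe u

/-- The ring `𝒟` of `k`-linear differential operators on `R = k[x]` (the case `n = 1`): the
`k`-subalgebra of `End_k R` generated by the multiplications by elements of `R` and by the
divided power derivations `D_t : x^v ↦ (v choose t) x^(v-t)` (`Polynomial.hasseDeriv t`). -/
noncomputable def diffOps (k : Type u) [Field k] : Subalgebra k (Module.End k k[X]) :=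
  Algebra.adjoin k
    (Set.range (fun r : k[X] => LinearMap.mulLeft k r) ∪
      Set.range (fun t : ℕ => (hasseDeriv t : k[X] →ₗ[k] k[X])))

/-- The ring `𝒟`, as a type. -/
def DO (k : Type u) [Field k] : Type u := diffOps k

noncomputable instance (k : Type u) [Field k] : Ring (DO k) := inferInstanceAs (Ring (diffOps k))

noncomputable instance (k : Type u) [Field k] : Algebra k (DO k) :=
  inferInstanceAs (Algebra k (diffOps k))

/-- `𝒟` acts on `R = k[x]` by applying operators. -/
noncomputable instance (k : Type u) [Field k] : Module (DO k) k[X] :=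
  inferInstanceAs (Module (diffOps k) k[X])

instance (k : Type u) [Field k] : IsScalarTower k (DO k) k[X] :=
  inferInstanceAs (IsScalarTower k (diffOps k) k[X])

/-- The inclusion `𝒟 → End_k R`. -/
noncomputable def toEnd (k : Type u) [Field k] : DO k →ₐ[k] Module.End k k[X] := (diffOps k).val

/-- The Bernstein filtration: `F_s` is the `k`-span of the products `x^a D_t` with
`a + t ≤ s`. -/
noncomputable def bernstein (k : Type u) [Field k] (s : ℕ) : Submodule k (DO k) :=
  Submodule.span k {P | ∃ a t : ℕ, a + t ≤ s ∧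
    toEnd k P = LinearMap.mulLeft k (X ^ a) * (hasseDeriv t : k[X] →ₗ[k] k[X])}

/-- `M` is holonomic (`n = 1`): it has a `k`-filtration `F_0 ⊆ F_1 ⊆ …`, exhausting `M`, with
`F_i F_j ⊆ F_(i+j)` and `dim_k F_i ≤ C i` for all `i ≥ 1`. -/
def IsHolonomic (k : Type u) [Field k] (M : Type u) [AddCommGroup M] [Module k M]
    [Module (DO k) M] [IsScalarTower k (DO k) M] : Prop :=
  ∃ (F : ℕ → Submodule k M) (C : ℝ), Monotone F ∧ (∀ m : M, ∃ i, m ∈ F i) ∧
    (∀ i j : ℕ, ∀ P ∈ bernstein k i, ∀ m ∈ F j, P • m ∈ F (i + j)) ∧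
    ∀ i : ℕ, 1 ≤ i → Module.Finite k (F i) ∧ (Module.finrank k (F i) : ℝ) ≤ C * i

section general

variable {k : Type u} [Field k]

theorem smul_apply' (P : DO k) (v : k[X]) : P • v = toEnd k P v := rfl

theorem IsHolonomic.of_surjective {M N : Type u} [AddCommGroup M] [Module k M]
    [Module (DO k) M] [IsScalarTower k (DO k) M] [AddCommGroup N] [Module k N]
    [Module (DO k) N] [IsScalarTower k (DO k) N] (f : M →ₗ[DO k] N)
    (hf : Function.Surjective f) (h : IsHolonomic k M) : IsHolonomic k N := by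
  obtain ⟨F, C, hmono, hex, hmul, hdim⟩ := h
  refine ⟨fun i => (F i).map (f.restrictScalars k), C, ?_, ?_, ?_, ?_⟩
  · intro i j hij
    exact Submodule.map_mono (hmono hij)
  · intro n
    obtain ⟨m, rfl⟩ := hf n
    obtain ⟨i, hi⟩ := hex m
    exact ⟨i, ⟨m, hi, rfl⟩⟩
  · rintro i j P hP _ ⟨m, hm, rfl⟩
    refine ⟨P • m, hmul i j P hP m hm, ?_⟩
    simp
  · intro i hi
    obtain ⟨h1, h2⟩ := hdim i hi
    refine ⟨inferInstance, ?_⟩
    refine le_trans ?_ h2
    exact_mod_cast Submodule.finrank_map_le _ _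

theorem natDegree_lt_iff_degree_lt_or_zero' {m : k[X]} {j : ℕ}
    (h : m.degree < ((j + 1 : ℕ) : WithBot ℕ)) : m.natDegree < j + 1 := by
  by_cases hm : m = 0
  · simp [hm]
  · rwa [natDegree_lt_iff_degree_lt hm]

theorem holonomic_poly : IsHolonomic k k[X] := by
  refine ⟨fun i => degreeLT k (i + 1), 2, ?_, ?_, ?_, ?_⟩
  · intro i j hij
    apply degreeLT_mono
    omega
  · intro m
    refine ⟨m.natDegree, ?_⟩
    rw [mem_degreeLT]
    exact lt_of_le_of_lt degree_le_natDegree (by exact_mod_cast Nat.lt_succ_self _)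
  · intro i j P hP m hm
    induction hP using Submodule.span_induction with
    | mem P h =>
      obtain ⟨a, t, hat, hP⟩ := h
      rw [smul_apply', hP]
      rw [mem_degreeLT] at hm
      rw [mem_degreeLT, Module.End.mul_apply, LinearMap.mulLeft_apply]
      have hmn : m.natDegree < j + 1 :=
        natDegree_lt_iff_degree_lt_or_zero' hm
      have h1 : (X ^ a * (hasseDeriv t) m : k[X]).natDegree < i + j + 1 := by
        refine lt_of_le_of_lt natDegree_mul_le ?_
        have := natDegree_hasseDeriv_le m t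
        rw [natDegree_X_pow]
        omega
      exact lt_of_le_of_lt degree_le_natDegree (by exact_mod_cast h1)
    | zero => simp
    | add x y _ _ hx hy => rw [add_smul]; exact Submodule.add_mem _ hx hy
    | smul c x _ hx => rw [smul_assoc]; exact Submodule.smul_mem _ _ hx
  · intro i hi
    have e := degreeLTEquiv k (i + 1)
    refine ⟨Module.Finite.equiv e.symm, ?_⟩
    rw [e.finrank_eq]
    simp only [Module.finrank_fintype_fun_eq_card, Fintype.card_fin]
    push_cast
    have : (1 : ℝ) ≤ i := by exact_mod_cast hi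
    linarith

end general

section construction

variable (p : ℕ) [hp : Fact p.Prime]

/-- The exponents used in block `f`. -/
def ex (f j : ℕ) : ℕ := p ^ f * (j + p ^ f * (4 * (j + p ^ f + 1)))

include hp in
theorem sep_aux {f f' j j' : ℕ} (hj : j < p ^ f) (_ : j' < p ^ f') (hlt : f < f') :
    ex p f j + 2 * p ^ (2 * f') ≤ ex p f' j' := by
  have h2 : 2 ≤ p := hp.out.two_le
  have hq : 2 * p ^ f ≤ p ^ f' := by
    calc 2 * p ^ f ≤ p * p ^ f := Nat.mul_le_mul_right _ h2
      _ = p ^ (f + 1) := by ring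
      _ ≤ p ^ f' := Nat.pow_le_pow_right (by omega) hlt
  have hq0 : 1 ≤ p ^ f := Nat.one_le_pow _ _ (by omega)
  have e1 : p ^ (2 * f') = p ^ f' * p ^ f' := by ring
  unfold ex
  rw [e1]
  generalize p ^ f = q at *
  generalize p ^ f' = r at *
  have h1 : q * (j + q * (4 * (j + q + 1))) ≤ q * (q + q * (4 * (q + q))) :=
    Nat.mul_le_mul_left _ (Nat.add_le_add hj.le (Nat.mul_le_mul_left _
      (Nat.mul_le_mul_left _ (by omega))))
  have h3 : r * (r * (4 * (r + 1))) ≤ r * (j' + r * (4 * (j' + r + 1))) :=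
    Nat.mul_le_mul_left _ (le_trans (Nat.mul_le_mul_left _
      (Nat.mul_le_mul_left _ (by omega))) (Nat.le_add_left _ _))
  have h4 : q * (q + q * (4 * (q + q))) + 2 * (r * r) ≤ r * (r * (4 * (r + 1))) := by
    have : q * q * q * 8 ≤ r * r * r := by nlinarith [Nat.mul_le_mul hq (Nat.mul_le_mul hq hq)]
    nlinarith [Nat.mul_le_mul hq hq]
  linarith

include hp in
theorem sep {f f' j j' : ℕ} (hj : j < p ^ f) (hj' : j' < p ^ f') (hne : ¬ (f = f' ∧ j = j')) :
    ex p f j + 2 * p ^ (2 * f) ≤ ex p f' j' ∨ ex p f' j' + 2 * p ^ (2 * f) ≤ ex p f j := by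
  have h2 : 2 ≤ p := hp.out.two_le
  rcases lt_trichotomy f f' with h | h | h
  · left
    have := sep_aux p hj hj' h
    have h5 : p ^ (2 * f) ≤ p ^ (2 * f') := Nat.pow_le_pow_right (by omega) (by omega)
    omega
  · subst h
    have key : ∀ a b : ℕ, a < b → ex p f a + 2 * p ^ (2 * f) ≤ ex p f b := by
      intro a b hab
      obtain ⟨c, rfl⟩ := Nat.exists_eq_add_of_lt hab
      unfold ex
      have e1 : p ^ (2 * f) = p ^ f * p ^ f := by ring
      rw [e1]
      generalize p ^ f = q
      nlinarith [Nat.zero_le (q * c), Nat.zero_le (q * q * c)]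
    rcases lt_or_gt_of_ne (fun e => hne ⟨rfl, e⟩) with h | h
    · exact Or.inl (key _ _ h)
    · exact Or.inr (key _ _ h)
  · right
    exact sep_aux p hj' hj h

include hp in
theorem choose_mul_pow (f a b : ℕ) : (p ^ f * a).choose (p ^ f * b) ≡ a.choose b [MOD p] := by
  induction f with
  | zero => simpa using Nat.ModEq.refl _
  | succ f ih =>
    have h := Choose.choose_modEq_choose_mod_mul_choose_div_nat (p := p)
      (n := p ^ (f + 1) * a) (k := p ^ (f + 1) * b)
    have e1 : p ^ (f + 1) * a = p * (p ^ f * a) := by ring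
    have e2 : p ^ (f + 1) * b = p * (p ^ f * b) := by ring
    rw [e1, e2] at h ⊢
    rw [Nat.mul_mod_right, Nat.mul_mod_right, Nat.mul_div_cancel_left _ hp.out.pos,
      Nat.mul_div_cancel_left _ hp.out.pos, Nat.choose_self, one_mul] at h
    exact h.trans ih

include hp in
theorem choose_add_pow (f j h t : ℕ) (ht : t < p ^ f) :
    (j + p ^ f * h).choose t ≡ j.choose t [MOD p] := by
  induction f generalizing j t with
  | zero =>
    have : t = 0 := by simpa using ht
    subst this
    simpa using Nat.ModEq.refl _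
  | succ f ih =>
    have h1 := Choose.choose_modEq_choose_mod_mul_choose_div_nat (p := p)
      (n := j + p ^ (f + 1) * h) (k := t)
    have h2 := Choose.choose_modEq_choose_mod_mul_choose_div_nat (p := p)
      (n := j) (k := t)
    have e1 : j + p ^ (f + 1) * h = j + p * (p ^ f * h) := by ring
    rw [e1] at h1 ⊢
    rw [Nat.add_mul_mod_self_left, Nat.add_mul_div_left _ _ hp.out.pos] at h1
    have h3 := ih (j / p) (t / p) (by
      rw [Nat.div_lt_iff_lt_mul hp.out.pos]
      calc t < p ^ (f + 1) := ht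
        _ = p ^ f * p := by ring)
    exact h1.trans ((Nat.ModEq.mul_left _ h3).trans h2.symm)

include hp in
theorem choose_mul_pow_zero (f m t : ℕ) (h0 : 0 < t) (ht : t < p ^ f) :
    p ∣ (p ^ f * m).choose t := by
  have h := choose_add_pow p f 0 m t ht
  rw [zero_add, Nat.choose_eq_zero_of_lt h0] at h
  exact (Nat.modEq_zero_iff_dvd).1 h

variable {k : Type u} [Field k] [CharP k p]

include hp in
theorem hasseDeriv_pow_mul {f t m : ℕ} (ht : t < p ^ f) (v : k[X]) :
    hasseDeriv t (X ^ (p ^ f * m) * v) = X ^ (p ^ f * m) * hasseDeriv t v := by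
  rw [hasseDeriv_mul, Finset.sum_eq_single (0, t)]
  · simp
  · rintro ⟨i, j⟩ hij hne
    rw [Finset.HasAntidiagonal.mem_antidiagonal] at hij
    simp only at hij
    have hi : 0 < i := by
      rcases Nat.eq_zero_or_pos i with h | h
      · subst h
        exact absurd (by ext <;> simp; omega) hne
      · exact h
    have : ((hasseDeriv i) (X ^ (p ^ f * m) : k[X])) = 0 := by
      rw [← monomial_one_right_eq_X_pow, hasseDeriv_monomial]
      have hd := choose_mul_pow_zero p f m i hi (by omega)
      rw [(CharP.cast_eq_zero_iff k p _).2 hd]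
      simp
    rw [this, zero_mul]
  · intro h
    exact absurd (by simp) h

include hp in
theorem commute_eventually (P : Module.End k k[X]) (hP : P ∈ diffOps k) :
    ∃ f0 : ℕ, ∀ f, f0 ≤ f → ∀ (m : ℕ) (v : k[X]),
      P (X ^ (p ^ f * m) * v) = X ^ (p ^ f * m) * P v := by
  unfold diffOps at hP
  induction hP using Algebra.adjoin_induction with
  | mem x hx =>
    rcases hx with ⟨r, rfl⟩ | ⟨t, rfl⟩
    · refine ⟨0, fun f _ m v => ?_⟩
      simp only [LinearMap.mulLeft_apply]
      ring
    · refine ⟨t, fun f hf m v => ?_⟩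
      have : t < p ^ f := lt_of_le_of_lt hf (Nat.lt_pow_self hp.out.one_lt)
      exact hasseDeriv_pow_mul p this v
  | algebraMap r =>
    refine ⟨0, fun f _ m v => ?_⟩
    simp [Module.algebraMap_end_apply]
  | add x y _ _ hx hy =>
    obtain ⟨f1, h1⟩ := hx
    obtain ⟨f2, h2⟩ := hy
    refine ⟨max f1 f2, fun f hf m v => ?_⟩
    rw [LinearMap.add_apply, LinearMap.add_apply, h1 f (le_trans (le_max_left _ _) hf),
      h2 f (le_trans (le_max_right _ _) hf), mul_add]
  | mul x y _ _ hx hy =>
    obtain ⟨f1, h1⟩ := hx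
    obtain ⟨f2, h2⟩ := hy
    refine ⟨max f1 f2, fun f hf m v => ?_⟩
    rw [Module.End.mul_apply, Module.End.mul_apply, h2 f (le_trans (le_max_right _ _) hf),
      h1 f (le_trans (le_max_left _ _) hf)]

/-- Block `f` of the formal element `w`. -/
noncomputable def block (k : Type u) [Field k] (f : ℕ) : k[X] :=
  ∑ j ∈ Finset.range (p ^ f), X ^ (ex p f j)

/-- The truncations of the formal element `w`. -/
noncomputable def wseq (k : Type u) [Field k] (N : ℕ) : k[X] :=
  ∑ f ∈ Finset.range N, block p k f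

include hp in
theorem stab (P : DO k) (v : k[X]) :
    ∃ c : k[X], ∀ᶠ N in atTop, P • (v * wseq p k N) = c + (P • v) * wseq p k N := by
  obtain ⟨f0, h⟩ := commute_eventually p (toEnd k P) (by exact (P : diffOps k).2)
  have hb : ∀ f, f0 ≤ f → P • (v * block p k f) = (P • v) * block p k f := by
    intro f hf
    rw [smul_apply', smul_apply', block, Finset.mul_sum, Finset.mul_sum, map_sum]
    refine Finset.sum_congr rfl fun j _ => ?_
    unfold ex
    rw [mul_comm v, h f hf, mul_comm]
  refine ⟨P • (v * wseq p k f0) - (P • v) * wseq p k f0, ?_⟩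
  filter_upwards [eventually_ge_atTop f0] with N hN
  induction N, hN using Nat.le_induction with
  | base => ring
  | succ N hN ih =>
    have e : wseq p k (N + 1) = wseq p k N + block p k N := Finset.sum_range_succ _ _
    rw [e, mul_add, smul_add, ih, hb N hN]
    ring

/-- Sequences of polynomials that are eventually zero. -/
def evZero (k : Type u) [Field k] : Submodule (DO k) (ℕ → k[X]) where
  carrier := {g | ∀ᶠ N in atTop, g N = 0}
  zero_mem' := Eventually.of_forall fun N => rfl
  add_mem' := by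
    intro a b ha hb
    filter_upwards [ha, hb] with N h1 h2
    rw [Pi.add_apply, h1, h2, add_zero]
  smul_mem' := by
    intro P a ha
    filter_upwards [ha] with N h1
    rw [Pi.smul_apply, h1, smul_zero]

/-- The ambient `𝒟`-module of all sequences modulo the eventually zero ones. -/
abbrev Seqs (k : Type u) [Field k] : Type u := (ℕ → k[X]) ⧸ evZero k

theorem mk_eq {g h : ℕ → k[X]} :
    (Submodule.Quotient.mk g : Seqs k) = Submodule.Quotient.mk h ↔ ∀ᶠ N in atTop, g N = h N := by
  rw [Submodule.Quotient.eq]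
  constructor
  · intro h
    filter_upwards [h] with N hN
    exact sub_eq_zero.1 hN
  · intro h
    change ∀ᶠ N in atTop, (g - _) N = 0
    filter_upwards [h] with N hN
    rw [Pi.sub_apply, hN, sub_self]

/-- The `𝒟`-module `M = R + R w`. -/
noncomputable def bigM (k : Type u) [Field k] [CharP k p] : Submodule (DO k) (Seqs k) where
  carrier := {g | ∃ u v : k[X], g = Submodule.Quotient.mk (fun N => u + v * wseq p k N)}
  zero_mem' := by
    refine ⟨0, 0, ?_⟩
    rw [← Submodule.Quotient.mk_zero, mk_eq]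
    exact Eventually.of_forall fun N => by simp
  add_mem' := by
    rintro _ _ ⟨u, v, rfl⟩ ⟨u', v', rfl⟩
    refine ⟨u + u', v + v', ?_⟩
    rw [← Submodule.Quotient.mk_add, mk_eq]
    refine Eventually.of_forall fun N => ?_
    simp only [Pi.add_apply]
    ring
  smul_mem' := by
    rintro P _ ⟨u, v, rfl⟩
    obtain ⟨c, hc⟩ := stab p P v
    refine ⟨P • u + c, P • v, ?_⟩
    rw [← Submodule.Quotient.mk_smul, mk_eq]
    filter_upwards [hc] with N hN
    rw [Pi.smul_apply, smul_add, hN]
    ring

theorem mem_bigM (u v : k[X]) :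
    (Submodule.Quotient.mk (fun N => u + v * wseq p k N) : Seqs k) ∈ bigM p k :=
  ⟨u, v, rfl⟩

/-- The element `u + v w` of `M`. -/
noncomputable def elt (u v : k[X]) : bigM p k :=
  ⟨Submodule.Quotient.mk (fun N => u + v * wseq p k N), mem_bigM p u v⟩

theorem elt_surj (m : bigM p k) : ∃ u v : k[X], m = elt p u v := by
  obtain ⟨_, u, v, rfl⟩ := m
  exact ⟨u, v, rfl⟩

theorem mk_elt (u v : k[X]) : (elt p u v : Seqs k) =
    Submodule.Quotient.mk (fun N => u + v * wseq p k N) := rfl

/-- The constants `R ⊆ M`. -/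
noncomputable def constMap (k : Type u) [Field k] [CharP k p] :
    k[X] →ₗ[DO k] bigM p k where
  toFun u := elt p u 0
  map_add' a b := by
    apply Subtype.ext
    rw [Submodule.coe_add, mk_elt, mk_elt, mk_elt, ← Submodule.Quotient.mk_add, mk_eq]
    refine Eventually.of_forall fun N => ?_
    simp only [Pi.add_apply]
    ring
  map_smul' P v := by
    apply Subtype.ext
    rw [RingHom.id_apply, Submodule.coe_smul, mk_elt, mk_elt, ← Submodule.Quotient.mk_smul, mk_eq]
    refine Eventually.of_forall fun N => ?_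
    simp only [Pi.smul_apply, zero_mul, add_zero]

/-- The submodule `M' = R` of `M`. -/
noncomputable def subM (k : Type u) [Field k] [CharP k p] : Submodule (DO k) (bigM p k) :=
  LinearMap.range (constMap p k)

theorem holonomic_subM : IsHolonomic k (subM p k) :=
  IsHolonomic.of_surjective (constMap p k).rangeRestrict (LinearMap.surjective_rangeRestrict _)
    holonomic_poly

/-- The map `R → M / M'`, `v ↦ [v w]`. -/
noncomputable def quotMap (k : Type u) [Field k] [CharP k p] :
    k[X] →ₗ[DO k] (bigM p k ⧸ subM p k) where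
  toFun v := Submodule.Quotient.mk (elt p 0 v)
  map_add' a b := by
    rw [← Submodule.Quotient.mk_add]
    congr 1
    apply Subtype.ext
    rw [Submodule.coe_add, mk_elt, mk_elt, mk_elt, ← Submodule.Quotient.mk_add, mk_eq]
    refine Eventually.of_forall fun N => ?_
    simp only [Pi.add_apply]
    ring
  map_smul' P v := by
    rw [RingHom.id_apply, ← Submodule.Quotient.mk_smul, eq_comm, Submodule.Quotient.eq]
    obtain ⟨c, hc⟩ := stab p P v
    refine ⟨c, ?_⟩
    apply Subtype.ext
    rw [Submodule.coe_sub, Submodule.coe_smul]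
    change (elt p c 0 : Seqs k) = _
    rw [mk_elt, mk_elt, mk_elt, ← Submodule.Quotient.mk_smul, ← Submodule.Quotient.mk_sub, mk_eq]
    filter_upwards [hc] with N hN
    simp only [Pi.sub_apply, Pi.smul_apply, zero_add]
    rw [hN]
    ring

theorem quotMap_surjective : Function.Surjective (quotMap p k) := by
  intro m
  obtain ⟨m, rfl⟩ := Submodule.Quotient.mk_surjective _ m
  obtain ⟨u, v, rfl⟩ := elt_surj p m
  refine ⟨v, ?_⟩
  change Submodule.Quotient.mk (elt p 0 v) = _
  rw [eq_comm, Submodule.Quotient.eq]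
  refine ⟨u, ?_⟩
  apply Subtype.ext
  rw [Submodule.coe_sub]
  change (elt p u 0 : Seqs k) = _
  rw [mk_elt, mk_elt, mk_elt, ← Submodule.Quotient.mk_sub, mk_eq]
  refine Eventually.of_forall fun N => ?_
  simp only [Pi.sub_apply]
  ring

theorem holonomic_quot : IsHolonomic k (bigM p k ⧸ subM p k) :=
  IsHolonomic.of_surjective (quotMap p k) (quotMap_surjective p) holonomic_poly

include hp in
theorem choose_ex {f j b : ℕ} (hb : b < p ^ f) :
    (((ex p f j).choose (p ^ f * b) : ℕ) : k) = ((j.choose b : ℕ) : k) := by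
  have h := (choose_mul_pow p f (j + p ^ f * (4 * (j + p ^ f + 1))) b).trans
    (choose_add_pow p f j (4 * (j + p ^ f + 1)) b hb)
  exact (CharP.natCast_eq_natCast' k p h)

include hp in
theorem ex_lower (f τ : ℕ) : 4 * p ^ (2 * f) ≤ ex p f (τ + 1) := by
  have hp0 : 0 < p ^ f := Nat.pow_pos hp.out.pos
  have e2 : p ^ (2 * f) = p ^ f * p ^ f := by ring
  unfold ex
  rw [e2]
  generalize p ^ f = q at *
  nlinarith [Nat.zero_le (q * q * τ), Nat.zero_le (q * q * q), Nat.zero_le (q * τ)]

omit hp in
theorem shift_le {f τ : ℕ} (h : τ < p ^ f - 1) : p ^ f * (τ + 1) ≤ p ^ (2 * f) := by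
  have e2 : p ^ (2 * f) = p ^ f * p ^ f := by ring
  rw [e2]
  exact Nat.mul_le_mul_left _ (by omega)

omit [CharP k p] in
theorem wcoeff {f j N m : ℕ} (hf : f < N) (hj : j < p ^ f)
    (h1 : m < ex p f j + 2 * p ^ (2 * f)) (h2 : ex p f j < m + 2 * p ^ (2 * f)) :
    (wseq p k N).coeff m = if m = ex p f j then 1 else 0 := by
  unfold wseq block
  rw [Finset.sum_sigma', finsetSum_coeff, Finset.sum_eq_single ⟨f, j⟩]
  · simp only [coeff_X_pow]
  · rintro ⟨f', j'⟩ hmem hne
    simp only [Finset.mem_sigma, Finset.mem_range] at hmem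
    rw [coeff_X_pow, if_neg]
    intro he
    have := sep p hj hmem.2 (f' := f') (by
      rintro ⟨rfl, rfl⟩
      exact hne rfl)
    simp only at he
    omega
  · intro h
    exact absurd (by simp [hf, hj]) h

omit hp [CharP k p] in
theorem zcoeff (a t N E : ℕ) (h : a ≤ E) :
    (X ^ a * hasseDeriv t (wseq p k N)).coeff E =
      ((E - a + t).choose t : k) * (wseq p k N).coeff (E - a + t) := by
  rw [coeff_X_pow_mul', if_pos h, hasseDeriv_coeff]

include hp in
theorem indep {f N : ℕ} (hf : f < N) (g : Fin (p ^ (2 * f)) × Fin (p ^ f - 1) → k)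
    (h : ∑ i, g i • (X ^ (i.1 : ℕ) * hasseDeriv (p ^ f * ((i.2 : ℕ) + 1)) (wseq p k N)) = 0) :
    ∀ i, g i = 0 := by
  have key : ∀ n : ℕ, ∀ i : Fin (p ^ (2 * f)) × Fin (p ^ f - 1), (i.2 : ℕ) = n → g i = 0 := by
    intro n
    induction n using Nat.strong_induction_on with
    | _ n ih =>
    intro i0 hi0
    have hp0 : 0 < p ^ f := Nat.pow_pos hp.out.pos
    have hex : 4 * p ^ (2 * f) ≤ ex p f ((i0.2 : ℕ) + 1) := ex_lower p f _
    have ht : ∀ i : Fin (p ^ f - 1), p ^ f * ((i : ℕ) + 1) ≤ p ^ (2 * f) := fun i =>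
      shift_le p i.2
    have h0 := congrArg (fun q : k[X] =>
      q.coeff (ex p f ((i0.2 : ℕ) + 1) - p ^ f * ((i0.2 : ℕ) + 1) + i0.1)) h
    simp only [finsetSum_coeff, coeff_smul, coeff_zero] at h0
    rw [Finset.sum_eq_single i0] at h0
    · have := ht i0.2
      have := i0.1.2
      rw [zcoeff p _ _ _ _ (by omega), wcoeff p hf (j := (i0.2 : ℕ) + 1) (by omega) (by omega)
        (by omega), if_pos (by omega)] at h0
      rw [show ex p f ((i0.2 : ℕ) + 1) - p ^ f * ((i0.2 : ℕ) + 1) + (i0.1 : ℕ) - (i0.1 : ℕ) +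
        p ^ f * ((i0.2 : ℕ) + 1) = ex p f ((i0.2 : ℕ) + 1) by omega] at h0
      rw [choose_ex p (by omega), Nat.choose_self] at h0
      simpa using h0
    · intro i _ hne
      have h3 := ht i0.2
      have h4 := ht i.2
      have h5 := i0.1.2
      have h6 := i.1.2
      rw [zcoeff p _ _ _ _ (by omega), wcoeff p hf (j := (i0.2 : ℕ) + 1) (by omega) (by omega)
        (by omega)]
      rcases lt_trichotomy (i.2 : ℕ) (i0.2 : ℕ) with hlt | heq | hgt
      · rw [ih (i.2 : ℕ) (by omega) i rfl, zero_smul]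
      · rw [if_neg, mul_zero, smul_zero]
        rw [heq]
        intro h7
        apply hne
        have h8 : (i.1 : ℕ) = i0.1 := by omega
        exact Prod.ext (Fin.ext h8) (Fin.ext heq)
      · split_ifs with h7
        · rw [h7, choose_ex p (by omega), Nat.choose_eq_zero_of_lt (by omega)]
          simp
        · simp
    · intro h
      exact absurd (Finset.mem_univ _) h
  exact fun i => key _ i rfl

/-- The operator `x^a D_t` as an element of `𝒟`. -/
noncomputable def op (k : Type u) [Field k] (a t : ℕ) : DO k :=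
  (⟨LinearMap.mulLeft k (X ^ a) * (hasseDeriv t : k[X] →ₗ[k] k[X]),
    (diffOps k).mul_mem (Algebra.subset_adjoin (Or.inl ⟨_, rfl⟩))
      (Algebra.subset_adjoin (Or.inr ⟨_, rfl⟩))⟩ : diffOps k)

theorem op_mem {a t s : ℕ} (h : a + t ≤ s) : op k a t ∈ bernstein k s :=
  Submodule.subset_span ⟨a, t, h, rfl⟩

theorem op_smul (a t : ℕ) (v : k[X]) : op k a t • v = X ^ a * hasseDeriv t v := rfl

include hp in
theorem not_holonomic : ¬ IsHolonomic k (bigM p k) := by
  rintro ⟨F, C, hmono, hex, hmul, hdim⟩
  obtain ⟨j0, hj0⟩ := hex (elt p 0 1)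
  have key : ∀ f : ℕ, (p : ℝ) ^ f - 1 ≤ |C| * (2 + j0) := by
    intro f
    have hp0 : 0 < p ^ (2 * f) := Nat.pow_pos hp.out.pos
    obtain ⟨hfin, hd⟩ := hdim (2 * p ^ (2 * f) + j0) (by omega)
    let y : Fin (p ^ (2 * f)) × Fin (p ^ f - 1) → bigM p k := fun i =>
      op k i.1 (p ^ f * ((i.2 : ℕ) + 1)) • elt p 0 1
    have hyF : ∀ i, y i ∈ F (2 * p ^ (2 * f) + j0) := fun i => hmul _ _ _ (op_mem (by
        have h5 := i.1.2
        have : p ^ f * ((i.2 : ℕ) + 1) ≤ p ^ (2 * f) := shift_le p i.2.2
        omega)) _ hj0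
    have hy : LinearIndependent k y := by
      refine (Fintype.linearIndependent_iff (R := k) (v := y)).2 fun g hg => ?_
      have h2 : ∑ i, g i • ((y i : bigM p k) : Seqs k) = 0 := by
        have := congrArg ((bigM p k).subtype.restrictScalars k) hg
        simpa using this
      have h3 : (Submodule.Quotient.mk (∑ i, g i • (fun N => X ^ (i.1 : ℕ) *
          hasseDeriv (p ^ f * ((i.2 : ℕ) + 1)) (wseq p k N))) : Seqs k) = 0 := by
        rw [← h2]
        have e3 : ∀ q : ℕ → k[X], (Submodule.Quotient.mk q : Seqs k) =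
          ((evZero k).mkQ.restrictScalars k) q := fun q => rfl
        rw [e3, map_sum]
        refine Finset.sum_congr rfl fun i _ => ?_
        rw [map_smul]
        congr 1
        change _ = ((op k i.1 (p ^ f * ((i.2 : ℕ) + 1)) • elt p 0 1 : bigM p k) : Seqs k)
        rw [Submodule.coe_smul, mk_elt, ← Submodule.Quotient.mk_smul, ← e3]
        congr 1
        funext N
        simp only [Pi.smul_apply, op_smul, zero_add, one_mul]
      rw [← Submodule.Quotient.mk_zero, mk_eq] at h3
      obtain ⟨N, hN, hfN⟩ := (h3.and (eventually_gt_atTop f)).exists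
      refine indep p hfN g ?_
      simpa [Finset.sum_apply] using hN
    have hc := finrank_span_eq_card hy
    have hc2 : Module.finrank k (Submodule.span k (Set.range y)) ≤
        Module.finrank k (F (2 * p ^ (2 * f) + j0)) :=
      Submodule.finrank_mono (Submodule.span_le.2 (by
        rintro _ ⟨i, rfl⟩
        exact hyF i))
    rw [hc] at hc2
    replace hc := hc2
    rw [Fintype.card_prod, Fintype.card_fin, Fintype.card_fin] at hc
    have hc' : ((p ^ (2 * f) * (p ^ f - 1) : ℕ) : ℝ) ≤ C * ((2 * p ^ (2 * f) + j0 : ℕ) : ℝ) :=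
      le_trans (by exact_mod_cast hc) hd
    have h1p : 1 ≤ p ^ f := Nat.one_le_pow _ _ hp.out.pos
    have hP : (1 : ℝ) ≤ (p : ℝ) ^ (2 * f) := by exact_mod_cast hp0
    push_cast [Nat.cast_sub h1p] at hc'
    have h4 : C * (2 * (p : ℝ) ^ (2 * f) + j0) ≤ |C| * (2 * (p : ℝ) ^ (2 * f) + j0) := by
      apply mul_le_mul_of_nonneg_right (le_abs_self _)
      positivity
    have h5 : |C| * (2 * (p : ℝ) ^ (2 * f) + j0) ≤ (p : ℝ) ^ (2 * f) * (|C| * (2 + j0)) := by
      have : (j0 : ℝ) ≤ (p : ℝ) ^ (2 * f) * j0 := le_mul_of_one_le_left (by positivity) hP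
      nlinarith [abs_nonneg C]
    have h6 := hc'.trans (h4.trans h5)
    exact le_of_mul_le_mul_left h6 (by positivity)
  have hp1 : (1 : ℝ) < p := by exact_mod_cast hp.out.one_lt
  obtain ⟨f, hf⟩ := pow_unbounded_of_one_lt (|C| * (2 + j0) + 1) hp1
  have := key f
  linarith

end construction

/-- **Extensions of holonomic `𝒟`-modules in characteristic `p` need not be holonomic.**
For every prime `p` and every field `k` of characteristic `p`, over `R = k[x]` (so `n = 1`) there
are a `𝒟`-module `M` and a submodule `M'` with `M'` and `M / M'` holonomic and `M` not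
holonomic. -/
theorem result (p : ℕ) [Fact p.Prime] (k : Type u) [Field k] [CharP k p] :
    ∃ (M : Type u) (_ : AddCommGroup M) (_ : Module k M) (_ : Module (DO k) M)
      (_ : IsScalarTower k (DO k) M) (M' : Submodule (DO k) M),
      IsHolonomic k M' ∧ IsHolonomic k (M ⧸ M') ∧ ¬ IsHolonomic k M :=
  ⟨bigM p k, inferInstance, inferInstance, inferInstance, inferInstance, subM p k,
    holonomic_subM p, holonomic_quot p, not_holonomic p⟩

end Pool.Agent.Results.MP_66748c_al.ExtensionNotHolonomic
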